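import Pool.Agent.Helper61.QE.St2

set_option autoImplicit false

open MeasureTheory Set Filter Topology Complex
open scoped ContDiff ComplexConjugate ENNReal

namespace Pool.Agent.Helper10.QE

open Pool.Agent.Helper68.QC Pool.Agent.Helper61.QE

private theorem det_eq (A : SL) : A 0 0 * A 1 1 - A 0 1 * A 1 0 = 1 := by
  have h := A.det_coe
  rw [Matrix.det_fin_two] at h
  exact h

/-- limits of Moebius relations -/
private theorem lim_mob {L : Filter ℕ} [L.NeBot] (B : ℕ → SL) (B0 : SL)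
    (hB : ∀ i j, Tendsto (fun n => B n i j) L (𝓝 (B0 i j))) (a b : ℕ → ℂ) (a0 b0 : ℂ)
    (ha : Tendsto a L (𝓝 a0)) (hb : Tendsto b L (𝓝 b0))
    (h : ∀ᶠ n in L, den (B n) (a n) ≠ 0 ∧ b n = mob (B n) (a n)) :
    den B0 a0 ≠ 0 ∧ b0 = mob B0 a0 := by
  have h1 : Tendsto (fun n => b n * (B n 1 0 * a n + B n 1 1)) L
      (𝓝 (b0 * (B0 1 0 * a0 + B0 1 1))) :=
    hb.mul (((hB 1 0).mul ha).add (hB 1 1))
  have h2 : Tendsto (fun n => B n 0 0 * a n + B n 0 1) L (𝓝 (B0 0 0 * a0 + B0 0 1)) :=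
    ((hB 0 0).mul ha).add (hB 0 1)
  have h3 : (fun n => b n * (B n 1 0 * a n + B n 1 1)) =ᶠ[L]
      (fun n => B n 0 0 * a n + B n 0 1) := by
    filter_upwards [h] with n hn
    have hn1 : B n 1 0 * a n + B n 1 1 ≠ 0 := hn.1
    have hn2 : b n = (B n 0 0 * a n + B n 0 1) / (B n 1 0 * a n + B n 1 1) := hn.2
    rw [hn2, div_mul_cancel₀ _ hn1]
  have h4 : b0 * (B0 1 0 * a0 + B0 1 1) = B0 0 0 * a0 + B0 0 1 :=
    tendsto_nhds_unique (h1.congr' h3) h2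
  have h5 : B0 1 0 * a0 + B0 1 1 ≠ 0 := by
    intro h0
    rw [h0, mul_zero] at h4
    have hd := det_eq B0
    have e : B0 0 0 * B0 1 1 - B0 0 1 * B0 1 0 = 0 := by
      linear_combination B0 0 0 * h0 + B0 1 0 * h4
    rw [e] at hd
    exact zero_ne_one hd
  refine ⟨h5, ?_⟩
  change b0 = (B0 0 0 * a0 + B0 0 1) / (B0 1 0 * a0 + B0 1 1)
  rw [eq_div_iff h5, h4]

/-- uniform convergence and convergence of the points -/
private theorem lim_unif {L : Filter ℕ} (f : ℕ → ℂ → ℂ) (g : ℂ → ℂ) (hg : Continuous g)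
    (hf : ∀ R : ℝ, TendstoUniformlyOn f g L (Metric.closedBall 0 R)) (x : ℕ → ℂ) (x0 : ℂ)
    (hx : Tendsto x L (𝓝 x0)) : Tendsto (fun n => f n (x n)) L (𝓝 (g x0)) := by
  have h1 : ∀ᶠ n in L, x n ∈ Metric.closedBall (0 : ℂ) (‖x0‖ + 1) := by
    have h2 : ∀ᶠ n in L, x n ∈ Metric.ball x0 1 := hx (Metric.ball_mem_nhds x0 one_pos)
    filter_upwards [h2] with n hn
    rw [mem_closedBall_zero_iff]
    rw [mem_ball_iff_norm] at hn
    calc ‖x n‖ = ‖x0 + (x n - x0)‖ := by rw [add_sub_cancel]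
      _ ≤ ‖x0‖ + ‖x n - x0‖ := norm_add_le _ _
      _ ≤ ‖x0‖ + 1 := by linarith
  rw [Metric.tendsto_nhds]
  intro ε hε
  have h3 := (Metric.tendstoUniformlyOn_iff.1 (hf (‖x0‖ + 1))) (ε / 2) (half_pos hε)
  have h4 : ∀ᶠ n in L, dist (g (x n)) (g x0) < ε / 2 :=
    (Metric.tendsto_nhds.1 ((hg.tendsto x0).comp hx)) (ε / 2) (half_pos hε)
  filter_upwards [h1, h3, h4] with n hn1 hn3 hn4
  have h5 := hn3 _ hn1
  rw [dist_comm] at h5
  calc dist (f n (x n)) (g x0) ≤ dist (f n (x n)) (g (x n)) + dist (g (x n)) (g x0) :=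
        dist_triangle _ _ _
    _ < ε := by linarith

private theorem mob_mem (hSUB : StSUB) (A : SL) (hA : SU A) (u : ℂ) (hu : u ∈ D) :
    den A u ≠ 0 ∧ mob A u ∈ D := by
  obtain ⟨-, -, -, h4, h5, -, -, -, -, -⟩ := hSUB
  have hu' : ‖u‖ < 1 := mem_ball_zero_iff.1 hu
  have h6 := h4 A hA u hu'.le
  refine ⟨h6, ?_⟩
  have h7 := h5 A hA u h6
  rw [mem_ball_zero_iff]
  have h8 : 0 < 1 - ‖u‖ ^ 2 := by nlinarith [norm_nonneg u]
  have h9 : 0 < ‖den A u‖ ^ 2 := by positivity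
  rw [← h7] at h8
  have h10 : 0 < 1 - ‖mob A u‖ ^ 2 := by
    by_contra hc
    push Not at hc
    have := mul_nonpos_of_nonpos_of_nonneg hc h9.le
    linarith
  nlinarith [norm_nonneg (mob A u)]

theorem pEQP (hSUB : StSUB) (hPGH : StPGH) (hINT : StINT) (hFUX : StFUX) (hENT : StENT)
    (hSUM : StSUM) : StEQP := by
  intro Γ _ s F h t0 G N R R' U P ν Ri Ri' hs ht0 hSq hLm
  obtain ⟨-, -, ρ0, -, hF⟩ := hFUX Γ s hs
  have hpt : ∀ u ∈ D, Tendsto (fun n => PG (G n) u) (U : Filter ℕ) (𝓝 (P u)) :=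
    fun u hu => hLm.pcon.tendsto_at hu
  have h3 : ∀ γ, γ ≠ 1 → Ri γ 1 0 ≠ 0 ∧ ‖(pl (s γ))⁻¹‖ < 1 ∧
      pl (Ri γ) * P ((pl (s γ))⁻¹) = 1 := by
    intro γ hγ
    obtain ⟨f1, f2, -, f4, -⟩ := hF γ hγ
    obtain ⟨C, hC, hC2⟩ := hENT (s γ) (hs.su γ) f1 1
    have g1 : ∀ n, C⁻¹ ≤ ‖R n γ 1 0‖ := fun n => (hC2 (G n) (hSq.gd n) (R n γ) (hSq.gint n γ)).2.1
    have g2 : ∀ n, pl (R n γ) = G n (pl (s γ)) :=
      fun n => (hC2 (G n) (hSq.gd n) (R n γ) (hSq.gint n γ)).2.2.2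
    have g3 : C⁻¹ ≤ ‖Ri γ 1 0‖ := ge_of_tendsto' (hLm.rcon γ 1 0).norm g1
    have g4 : Ri γ 1 0 ≠ 0 := by
      rw [← norm_pos_iff]
      exact (inv_pos.2 hC).trans_le g3
    have g5 : 1 < ‖pl (s γ)‖ := by rw [f4]; exact f2
    have g6 : ‖(pl (s γ))⁻¹‖ < 1 := by
      rw [norm_inv]
      exact inv_lt_one_of_one_lt₀ g5
    refine ⟨g4, g6, ?_⟩
    have g7 : pl (s γ) ≠ 0 := by
      intro h0
      rw [h0, norm_zero] at g5
      linarith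
    have g8 : Tendsto (fun n => pl (R n γ)) (U : Filter ℕ) (𝓝 (pl (Ri γ))) :=
      ((hLm.rcon γ 1 1).neg).div (hLm.rcon γ 1 0) g4
    have g9 : Tendsto (fun n => pl (R n γ) * PG (G n) ((pl (s γ))⁻¹)) (U : Filter ℕ)
        (𝓝 (pl (Ri γ) * P ((pl (s γ))⁻¹))) :=
      g8.mul (hpt _ (mem_ball_zero_iff.2 g6))
    have g10 : (fun n => pl (R n γ) * PG (G n) ((pl (s γ))⁻¹)) = fun _ => (1 : ℂ) := by
      funext n
      have k1 : G n (pl (s γ)) ≠ 0 := by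
        intro h0
        have k2 := (hSq.gd n).zero
        exact g7 ((G n).injective (h0.trans k2.symm))
      rw [g2 n]
      unfold PG
      rw [inv_inv, mul_inv_cancel₀ k1]
    rw [g10] at g9
    exact tendsto_nhds_unique g9 tendsto_const_nhds
  refine ⟨?_, ?_, h3, ?_⟩
  · intro γ u hu
    have hsu : SU (jj (s γ)) := by
      obtain ⟨-, -, -, -, -, -, h7, -, -, -⟩ := hSUB
      exact (h7 (s γ) (s γ) (hs.su γ) (hs.su γ)).2.2
    obtain ⟨k1, k2⟩ := mob_mem hSUB (jj (s γ)) hsu u hu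
    apply lim_mob (L := (U : Filter ℕ)) (fun n => jj (R n γ)) (jj (Ri γ)) ?_
      (fun n => PG (G n) u) (fun n => PG (G n) (mob (jj (s γ)) u)) (P u) (P (mob (jj (s γ)) u))
      (hpt u hu) (hpt _ k2) ?_
    · intro i j
      fin_cases i <;> fin_cases j
      · exact hLm.rcon γ 1 1
      · exact hLm.rcon γ 1 0
      · exact hLm.rcon γ 0 1
      · exact hLm.rcon γ 0 0
    · refine Filter.Eventually.of_forall fun n => ?_
      have k3 := (hPGH.1 (G n) (hSq.gd n).zero).2.2 (s γ) (R n γ) (hSq.gint n γ)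
      exact ⟨fun h0 => k1 ((k3.1 u).2 h0), k3.2.1 u k1⟩
  · intro γ ξ hξ
    have k0 : Tendsto (fun n => den (R n γ) ξ) (U : Filter ℕ) (𝓝 (den (Ri γ) ξ)) :=
      ((hLm.rcon γ 1 0).mul_const ξ).add (hLm.rcon γ 1 1)
    have k1 : ∀ᶠ n in (U : Filter ℕ), den (R n γ) ξ ≠ 0 := k0.eventually_ne hξ
    have k2 : Tendsto (fun n => mob (R n γ) ξ) (U : Filter ℕ) (𝓝 (mob (Ri γ) ξ)) :=
      (((hLm.rcon γ 0 0).mul_const ξ).add (hLm.rcon γ 0 1)).div k0 hξ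
    apply lim_mob (L := (U : Filter ℕ)) (fun n => R' n γ) (Ri' γ) (hLm.rcon' γ)
      (fun n => nq (N n) ξ) (fun n => nq (N n) (mob (R n γ) ξ)) (nq ν ξ) (nq ν (mob (Ri γ) ξ))
      (lim_unif _ _ (nq ν).continuous hLm.ncon _ _ tendsto_const_nhds)
      (lim_unif _ _ (nq ν).continuous hLm.ncon _ _ k2) ?_
    filter_upwards [k1] with n hn
    have k3 : Intw (R n γ) (R' n γ) (nq (N n)) :=
      hINT.2.2 (s γ) (R n γ) (R' n γ) (G n) (nq (N n)) (hSq.gint n γ) (hSq.pint n γ)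
    exact ⟨fun h0 => hn ((k3.1 ξ).2 h0), k3.2.1 ξ hn⟩
  · obtain ⟨C, -, hC⟩ := hSUM Γ s hs
    refine ⟨C, fun T hT => ?_⟩
    have k1 : Tendsto (fun n => ∑ γ ∈ T, (‖R n γ 1 0‖ ^ 4)⁻¹) (U : Filter ℕ)
        (𝓝 (∑ γ ∈ T, (‖Ri γ 1 0‖ ^ 4)⁻¹)) := by
      apply tendsto_finsetSum
      intro γ hγ
      have hne : γ ≠ 1 := fun h0 => hT (h0 ▸ hγ)
      have k2 := (h3 γ hne).1
      apply Tendsto.inv₀ ((hLm.rcon γ 1 0).norm.pow 4)
      positivity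
    exact le_of_tendsto' k1 fun n => (hC (G n) (hSq.gd n) (R n) (hSq.gint n)).2 T hT

end Pool.Agent.Helper10.QE
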